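import Pool.Agent.MP_ed9623_an.H77.SpecW

/-! Row L2a: the half difference solves scalar equations with a tangentially regular right hand
side. -/

open MeasureTheory Filter Topology Set
open scoped ContDiff

namespace Pool.Agent.MP_ed9623_an.H77

open H64

namespace L2a

variable {O : Set P} {f f' g g' : P → ℝ} {γ : ℝ → ℝ} {r : ℝ}

/-- A factor bounded on `O` times a square integrable one, cut to `O`. -/
theorem m2_ind_mul (hO : MeasurableSet O) (hf : M2 f) (hg : M2 g) {C : ℝ}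
    (h : ∀ᵐ p, p ∈ O → |f p| ≤ C) : M2 (O.indicator fun p => f p * g p) := by
  refine (hg.cmul C).of_le ((hf.meas.mul hg.meas).indicator hO) (h.mono fun p hp => ?_)
  by_cases hq : p ∈ O
  · rw [indicator_of_mem hq, abs_mul, abs_mul]
    exact mul_le_mul_of_nonneg_right ((hp hq).trans (le_abs_self _)) (abs_nonneg _)
  · rw [indicator_of_notMem hq, abs_zero]
    exact abs_nonneg _

theorem ty_of_wd (hg : M2 g) (h : WD O (ee 0) f g) : ∃ R, TY O f R := ⟨nm g, g, hg, le_rfl, h⟩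

theorem ty_add (h : ∃ R, TY O f R) (h' : ∃ R, TY O g R) (hf : M2 f) (hg : M2 g) :
    ∃ R, TY O (fun p => f p + g p) R := by
  obtain ⟨R, h⟩ := h
  obtain ⟨R', h'⟩ := h'
  exact ⟨_, h.add h' hf hg⟩

theorem ty_neg (h : ∃ R, TY O f R) : ∃ R, TY O (fun p => -f p) R := by
  obtain ⟨R, k, a, -, c⟩ := h
  exact ty_of_wd a.neg c.neg

theorem ty_prod (hP : PrdS) (hO : IsOpen O) (hf : M2 f) (hf' : M2 f') (hg : M2 g) (hg' : M2 g')
    (wf : WD O (ee 0) f f') (wg : WD O (ee 0) g g')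
    (h1 : M2 (O.indicator fun p => f' p * g p)) (h2 : M2 (O.indicator fun p => f p * g' p)) :
    ∃ R, TY O (O.indicator fun p => f p * g p) R :=
  ty_of_wd (h1.add h2) ((hP.1 O (ee 0) f f' g g' hO hf hf' hg hg' wf wg).congr
    (Eventually.of_forall fun p hp => (indicator_of_mem hp (fun p => f p * g p)).symm)
    (Eventually.of_forall fun p hp => by rw [indicator_of_mem hp, indicator_of_mem hp]))

theorem m2Y (hγ : Gam γ) {d : Fin 2 → P → ℝ} (h : H1 γ f d) :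
    M2 fun p => d 0 p + deriv γ p.1 * d 1 p := (h.md 0).add ((h.md 1).gmul hγ.deriv)

/-- Boundedness on the square. -/
theorem bdd (hM : MixS) (hγ : Gam γ) {d : Fin 2 → P → ℝ} (h : H1 γ f d)
    (ht : ∃ R, TY (Q r) (d 1) R) : ∃ C, ∀ᵐ p, p ∈ Qp 0 r → |f p| ≤ C := by
  obtain ⟨C, -, -, -, h3⟩ := hM (-r) r (-r) r
  obtain ⟨R, k, mk, -, wk⟩ := ht
  exact ⟨_, (h3 f _ (d 1) k h.m (m2Y hγ h) (h.md 1) mk ((h.wd0 hγ).mono (subset_univ _))
    (h.wd1.mono (subset_univ _)) wk).mono fun p a hp => a (Qp_sub 0 r hp)⟩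

theorem mix2 (hM : MixS) (hr : 0 < r) {fY φ φS : P → ℝ} (hf : M2 f) (hY : M2 fY) (hφ : M2 φ)
    (hS : M2 φS) (w0 : WD (Qp 0 r) (ee 0) f fY) (w1 : WD (Qp 0 r) (ee 1) φ φS) :
    M2 ((Qp 0 r).indicator fun p => φ p * f p) := by
  obtain ⟨C, -, -, h2, -⟩ := hM (-r) r 0 r
  rw [Qp_zero hr.le] at w0 w1 ⊢
  exact (h2 f fY φ φS hf hY hφ hS w0 w1).1

/-- The tangential derivative has a tangential derivative. -/
theorem tyY (hγ : Gam γ) {d : Fin 2 → P → ℝ} (hd : ∀ i, M2 (d i)) (ht : ∀ i, ∃ R, TY O (d i) R) :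
    ∃ k, M2 k ∧ WD O (ee 0) (fun p => d 0 p + deriv γ p.1 * d 1 p) k := by
  obtain ⟨R, k0, m0, -, w0⟩ := ht 0
  obtain ⟨R', k1, m1, -, w1⟩ := ht 1
  have ms : M2 fun p : P => deriv γ p.1 * k1 p + pd (ee 0) (fun p : P => deriv γ p.1) p * d 1 p := by
    simp only [hγ.deriv.pd0]
    exact (m1.gmul hγ.deriv).add ((hd 1).gmul hγ.deriv.deriv)
  exact ⟨_, m0.add ms,
    w0.add (w1.smul (hd 1) m1 hγ.deriv.smP) (hd 0) m0 ((hd 1).gmul hγ.deriv) ms⟩

theorem int3 {φ : P → ℝ} (hf : M2 f) (hg : M2 g) (hφ : Test O φ) :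
    Integrable fun p => f p * g p * φ p := by
  have := hf.int_mul (hg.tmul hφ)
  refine this.congr (Eventually.of_forall fun p => ?_)
  simp only
  ring

/-- The right hand side. -/
noncomputable def rhsG (r : ℝ) (a : Fin 2 → P → ℝ) (da : Fin 2 → Fin 2 → P → ℝ)
    (w : Fin 2 → P → ℝ) (dw : Fin 2 → Fin 2 → P → ℝ) (z : Fin 2 → P → ℝ) (j : Fin 2) : P → ℝ :=
  fun p => -((Qp 0 r).indicator (z j) p
    + (((Qp 0 r).indicator (fun p => a 0 p * dw j 0 p) p
        + (Qp 0 r).indicator (fun p => a 1 p * dw j 1 p) p)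
      + ((Qp 0 r).indicator (fun p => w 0 p * da j 0 p) p
        + (Qp 0 r).indicator (fun p => w 1 p * da j 1 p) p)))

variable {a w z : Fin 2 → P → ℝ} {da dw dz : Fin 2 → Fin 2 → P → ℝ}

theorem int_rhsG (h : Pr γ r a da w dw z dz) (j : Fin 2) {φ : P → ℝ} (hφ : Test (Q r) φ) :
    ∫ p, rhsG r a da w dw z j p * φ p = -((∫ p, z j p * φ p)
      + ((∫ p, (∑ i, a i p * dw j i p) * φ p) + ∫ p, (∑ i, w i p * da j i p) * φ p)) := by
  have ia : ∀ i, Integrable fun p => a i p * dw j i p * φ p := fun i =>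
    int3 (h.va.h1 i).m ((h.vw.h1 j).md i) hφ
  have iw : ∀ i, Integrable fun p => w i p * da j i p * φ p := fun i =>
    int3 (h.vw.h1 i).m ((h.va.h1 j).md i) hφ
  have ia' : Integrable fun p => (∑ i, a i p * dw j i p) * φ p := by
    simp only [Fin.sum_univ_two, add_mul]
    exact (ia 0).add (ia 1)
  have iw' : Integrable fun p => (∑ i, w i p * da j i p) * φ p := by
    simp only [Fin.sum_univ_two, add_mul]
    exact (iw 0).add (iw 1)
  have iz := (h.vz.h1 j).m.int_mul hφ.m2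
  have iaw : Integrable fun p => (∑ i, a i p * dw j i p) * φ p + (∑ i, w i p * da j i p) * φ p :=
    ia'.add iw'
  rw [← integral_add ia' iw', ← integral_add iz iaw, ← integral_neg]
  rw [int_test_congr (O := Q r) (g := fun p => -(z j p + ((∑ i, a i p * dw j i p)
    + ∑ i, w i p * da j i p))) (fun _ => hφ.off)]
  · refine integral_congr_ae (Eventually.of_forall fun p => ?_)
    simp only
    ring
  · filter_upwards [h.na 0, h.na 1, h.nw 0, h.nw 1, h.nz j] with p a0 a1 w0 w1 z0 hp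
    by_cases hq : p ∈ Qp 0 r
    · simp only [rhsG, indicator_of_mem hq, Fin.sum_univ_two]
    · simp only [rhsG, indicator_of_notMem hq, Fin.sum_univ_two, a0 ⟨hp, hq⟩, a1 ⟨hp, hq⟩,
        w0 ⟨hp, hq⟩, w1 ⟨hp, hq⟩, z0 ⟨hp, hq⟩, zero_mul]

theorem iff_rhsG (hP : PrdS) (hγ : Gam γ) (h : Pr γ r a da w dw z dz) {ζ : Fin 2 → P → ℝ}
    (hζ : ∀ j, Test (Q r) (ζ j)) :
    E1 γ a w dw z ζ ↔ di γ dw ζ = ip (rhsG r a da w dw z) ζ := by
  have e1 := hP.2 γ a w ζ da dw hγ h.va h.vw.h1 fun j => (hζ j).top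
  have e2 := hP.2 γ w a ζ dw da hγ h.vw h.va.h1 fun j => (hζ j).top
  have e3 : ip (rhsG r a da w dw z) ζ = -(ip z ζ + (ip (fun j p => ∑ i, a i p * dw j i p) ζ
      + ip (fun j p => ∑ i, w i p * da j i p) ζ)) := by
    simp only [ip]
    rw [← Finset.sum_add_distrib, ← Finset.sum_add_distrib, ← Finset.sum_neg_distrib]
    exact Finset.sum_congr rfl fun j _ => int_rhsG h j (hζ j)
  rw [E1, e1, e2, e3]
  constructor <;> intro k <;> linarith

theorem dd_zero_fun (γ : ℝ → ℝ) (i : Fin 2) (p : P) : dd γ i (fun _ => 0) p = 0 := by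
  fin_cases i
  · change pd (ee 0) (fun _ => 0) p - deriv γ p.1 * pd (ee 1) (fun _ => 0) p = 0
    rw [pd_const, pd_const, mul_zero, sub_zero]
  · exact pd_const _ _ _

theorem so_eq (hP : PrdS) (hγ : Gam γ) (h : Pr γ r a da w dw z dz) (j : Fin 2) {φ : P → ℝ}
    (hφ : Test (Qp 0 r) φ) :
    ∑ i, ∫ x, dw j i x * dd γ i φ x = ∫ x, rhsG r a da w dw z j x * φ x := by
  have key : ∀ ζ : Fin 2 → P → ℝ, (∀ j, Test (Qp 0 r) (ζ j)) →
      di γ dw ζ = ip (rhsG r a da w dw z) ζ := fun ζ hζ =>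
    (iff_rhsG hP hγ h fun j => (hζ j).mono (Qp_sub 0 r)).1 (h.e1 ζ hζ)
  fin_cases j
  · have := key ![φ, fun _ => 0] fun j => by
      fin_cases j
      exacts [hφ, Test.zero _]
    simpa [di, ip, Fin.sum_univ_two, dd_zero_fun] using this
  · have := key ![fun _ => 0, φ] fun j => by
      fin_cases j
      exacts [Test.zero _, hφ]
    simpa [di, ip, Fin.sum_univ_two, dd_zero_fun] using this

end L2a

open L2a in
theorem rowL2a : OfL2a := by
  intro hP hM hN γ r a da w dw z dz hγ hr h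
  have oO := isOpen_Qp 0 r
  have mO := oO.measurableSet
  have sO := Qp_sub 0 r
  choose Ca ba using fun i => bdd hM hγ (h.va.h1 i) (h.ta i 1)
  choose Cw bw using fun i => bdd hM hγ (h.vw.h1 i) (h.tw i 1)
  choose Ra aY maY naY waY using h.ta
  choose Rw wY mwY nwY wwY using h.tw
  have m1 : ∀ j i, M2 ((Qp 0 r).indicator fun p => a i p * dw j i p) := fun j i =>
    m2_ind_mul mO (h.va.h1 i).m ((h.vw.h1 j).md i) (ba i)
  have m2 : ∀ j i, M2 ((Qp 0 r).indicator fun p => w i p * da j i p) := fun j i =>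
    m2_ind_mul mO (h.vw.h1 i).m ((h.va.h1 j).md i) (bw i)
  have mz : ∀ j, M2 ((Qp 0 r).indicator (z j)) := fun j => (h.vz.h1 j).m.ind mO
  have so : ∀ j, So γ 0 r (w j) (dw j) (rhsG r a da w dw z j) := fun j =>
    ⟨(h.vw.h1 j).mono (subset_univ _),
      ((mz j).add (((m1 j 0).add (m1 j 1)).add ((m2 j 0).add (m2 j 1)))).neg, h.nw j,
      fun φ hφ => so_eq hP hγ h j hφ⟩
  have dS : ∀ j i, ∃ k, M2 k ∧ WD (Qp 0 r) (ee 1) (dw j i) k := fun j i => by
    obtain ⟨n1, n2, n3⟩ := (hN γ 0 r (w j) _ (dw j) (wY j) hγ (so j) (mwY j)).1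
      fun i => (wwY j i).mono sO
    fin_cases i
    · exact ⟨_, (mwY j 1).sub (n1.gmul hγ.deriv), n3⟩
    · exact ⟨_, n1, n2⟩
  have t1 : ∀ j i, ∃ R, TY (Qp 0 r) ((Qp 0 r).indicator fun p => a i p * dw j i p) R :=
    fun j i => by
      obtain ⟨k, mk, wk⟩ := tyY (O := Qp 0 r) hγ (h.va.h1 i).md fun l =>
        ty_of_wd (maY i l) ((waY i l).mono sO)
      obtain ⟨s, ms, ws⟩ := dS j i
      refine ty_prod hP oO (h.va.h1 i).m (m2Y hγ (h.va.h1 i)) ((h.vw.h1 j).md i) (mwY j i)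
        (((h.va.h1 i).wd0 hγ).mono (subset_univ _)) ((wwY j i).mono sO) ?_
        (m2_ind_mul mO (h.va.h1 i).m (mwY j i) (ba i))
      have := mix2 hM hr (m2Y hγ (h.va.h1 i)) mk ((h.vw.h1 j).md i) ms wk ws
      simpa only [mul_comm (dw j i _)] using this
  have t2 : ∀ j i, ∃ R, TY (Qp 0 r) ((Qp 0 r).indicator fun p => w i p * da j i p) R :=
    fun j i => by
      have w0 : WD (Qp 0 r) (ee 0) (w i) fun p => dw i 0 p + deriv γ p.1 * dw i 1 p :=
        ((h.vw.h1 i).wd0 hγ).mono (subset_univ _)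
      exact ty_prod hP oO (h.vw.h1 i).m (m2Y hγ (h.vw.h1 i)) ((h.va.h1 j).md i) (maY j i)
        w0 ((waY j i).mono sO)
        (mix2 hM hr ((h.va.h1 j).md i) (maY j i) (m2Y hγ (h.vw.h1 i)) (mwY i 1)
          ((waY j i).mono sO)
          (w0.comm ((h.vw.h1 i).wd1.mono (subset_univ _)) ((wwY i 1).mono sO)))
        (m2_ind_mul mO (h.vw.h1 i).m (maY j i) (bw i))
  have tz : ∀ j, ∃ R, TY (Qp 0 r) ((Qp 0 r).indicator (z j)) R := fun j =>
    ty_of_wd (m2Y hγ (h.vz.h1 j)) ((((h.vz.h1 j).wd0 hγ).mono (subset_univ _)).congr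
      (Eventually.of_forall fun p hp => (indicator_of_mem hp _).symm)
      (Eventually.of_forall fun _ _ => rfl))
  refine ⟨rhsG r a da w dw z, fun j => ⟨so j, Eventually.of_forall fun p hp => ?_, ?_⟩,
    fun ζ hζ => iff_rhsG hP hγ h hζ⟩
  · simp only [rhsG, indicator_of_notMem hp, add_zero, neg_zero]
  · exact ty_neg (ty_add (tz j) (ty_add (ty_add (t1 j 0) (t1 j 1) (m1 j 0) (m1 j 1))
      (ty_add (t2 j 0) (t2 j 1) (m2 j 0) (m2 j 1)) ((m1 j 0).add (m1 j 1))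
      ((m2 j 0).add (m2 j 1))) (mz j) (((m1 j 0).add (m1 j 1)).add ((m2 j 0).add (m2 j 1))))

end Pool.Agent.MP_ed9623_an.H77
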