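import Pool.Agent.MP_ed9623_an.H77.SpecA

/-! Difference quotients in time of a weak solution are bounded. -/

open MeasureTheory Filter Topology Set
open scoped ContDiff InnerProductSpace

namespace Pool.Agent.MP_ed9623_an.H77

namespace Dq1

variable {H V : Type} [NormedAddCommGroup H] [InnerProductSpace ℝ H] [CompleteSpace H]
  [NormedAddCommGroup V] [InnerProductSpace ℝ V] [CompleteSpace V]

theorem scale (S : St H V) (u v : V) (a b : ℝ) : a • b • (S.G u - S.G v) =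
    -(S.A (a • b • (u - v)) + S.B (a • b • (u - v)) u + S.B v (a • b • (u - v))) := by
  rw [S.G_sub]
  simp only [map_smul, smul_apply, smul_neg, smul_add]

theorem point (S : St H V) {u v : V} (Y g : V) {R : ℝ} (hu : ‖S.ι u‖ ≤ R) (hv : ‖S.ι v‖ ≤ R) :
    2 * ⟪-(S.A Y + S.B Y u + S.B v Y) + g, Y⟫_ℝ ≤ -S.c * ‖Y‖ ^ 2 +
      2 * (S.C ^ 2 / (S.c / 6) ^ 3) * R ^ 2 * (‖u‖ ^ 2 + ‖v‖ ^ 2) * ‖S.ι Y‖ ^ 2 +
      3 / S.c * ‖g‖ ^ 2 := by
  have hc := S.c0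
  have h1 := S.coer Y
  have h2 := S.young (ε := S.c / 6) (by positivity) u Y
  have h3 := S.young' (ε := S.c / 6) (by positivity) v Y
  have h4 := (neg_le_abs _).trans (abs_real_inner_le_norm (S.B Y u) Y)
  have h5 := (neg_le_abs _).trans (abs_real_inner_le_norm (S.B v Y) Y)
  have h6 := real_inner_le_norm g Y
  have h7 : 2 * (‖g‖ * ‖Y‖) ≤ S.c / 3 * ‖Y‖ ^ 2 + 3 / S.c * ‖g‖ ^ 2 := by
    have e : S.c / 3 * ‖Y‖ ^ 2 + 3 / S.c * ‖g‖ ^ 2 - 2 * (‖g‖ * ‖Y‖) =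
        3 / S.c * (‖g‖ - S.c / 3 * ‖Y‖) ^ 2 := by
      field_simp
      ring
    have : 0 ≤ 3 / S.c * (‖g‖ - S.c / 3 * ‖Y‖) ^ 2 := by positivity
    linarith
  have k : ∀ x : V, ‖S.ι x‖ ≤ R → S.C ^ 2 / (S.c / 6) ^ 3 * ((‖S.ι x‖ * ‖x‖) ^ 2 * ‖S.ι Y‖ ^ 2) ≤
      S.C ^ 2 / (S.c / 6) ^ 3 * ((R * ‖x‖) ^ 2 * ‖S.ι Y‖ ^ 2) := fun x hx => by gcongr
  have h8 := k u hu
  have h9 := k v hv
  rw [inner_add_left, inner_neg_left, inner_add_left, inner_add_left]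
  nlinarith

theorem margin {I : Set ℝ} (hI : Itv I) {s t : ℝ} (hs : s ∈ I) (ht : t ∈ I) :
    ∃ δ : ℝ, 0 < δ ∧ s - 2 * δ ∈ I ∧ t + δ ∈ I := by
  have h1 : ∀ᶠ δ in 𝓝 (0 : ℝ), s - 2 * δ ∈ I :=
    (by fun_prop : Continuous fun δ : ℝ => s - 2 * δ).continuousAt.eventually_mem
      (by simpa using hI.1.mem_nhds hs)
  have h2 : ∀ᶠ δ in 𝓝 (0 : ℝ), t + δ ∈ I :=
    (by fun_prop : Continuous fun δ : ℝ => t + δ).continuousAt.eventually_mem
      (by simpa using hI.1.mem_nhds ht)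
  obtain ⟨δ, a, b⟩ := (((h1.and h2).filter_mono nhdsWithin_le_nhds).and
    (self_mem_nhdsWithin (s := Ioi (0 : ℝ)))).exists
  exact ⟨δ, b, a⟩

end Dq1

theorem rowDq1 : OfDq1 := by
  intro hSt hPl hWt H V _ _ _ _ _ _ S I z Z hI hw s hs t ht hst
  obtain ⟨δ, hδ, hs1, ht1⟩ := Dq1.margin hI hs ht
  have hc := S.c0
  obtain ⟨R, hR⟩ := isCompact_Icc.exists_bound_of_continuousOn (hw.cont.mono (hI.Icc hs1 ht1))
  obtain ⟨κ, hκ⟩ : ∃ κ, κ = 2 * (S.C ^ 2 / (S.c / 6) ^ 3) * R ^ 2 := ⟨_, rfl⟩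
  have κ0 : 0 ≤ κ := by rw [hκ]; positivity
  obtain ⟨Γ, Γ0, hΓ⟩ := hPl (κ * ((∫ r in s - 2 * δ..t + δ, ‖Z r‖ ^ 2) +
    ∫ r in s - 2 * δ..t + δ, ‖Z r‖ ^ 2))
  obtain ⟨N, hN⟩ : ∃ N, N = Γ * (3 / S.c * ∫ r in s - 2 * δ..t + δ, ‖S.G (Z r)‖ ^ 2) := ⟨_, rfl⟩
  have N0 : 0 ≤ N := by
    have := intervalIntegral.integral_nonneg_of_forall (μ := volume)
      (f := fun r => ‖S.G (Z r)‖ ^ 2) (show s - 2 * δ ≤ t + δ by linarith) fun r => by positivity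
    rw [hN]
    positivity
  refine ⟨1 + N / δ ^ 2 + N / S.c / δ ^ 2, ?_⟩
  have ev : ∀ᶠ h in 𝓝[≠] (0 : ℝ), h ∈ Ioo (-δ) δ :=
    mem_nhdsWithin_of_mem_nhds (Ioo_mem_nhds (by linarith) hδ)
  filter_upwards [ev] with h hh
  have hJ := hI.inter (hI.shift h)
  have mem : ∀ r ∈ Icc (s - δ) t, r ∈ Icc (s - 2 * δ) (t + δ) ∧ r + h ∈ Icc (s - 2 * δ) (t + δ) :=
    fun r hr => ⟨⟨by linarith [hr.1], by linarith [hr.2]⟩,
      ⟨by linarith [hr.1, hh.1], by linarith [hr.2, hh.2]⟩⟩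
  have memJ : ∀ r ∈ Icc (s - δ) t, r ∈ I ∩ {t | t + h ∈ I} := fun r hr =>
    ⟨hI.Icc hs1 ht1 (mem r hr).1, hI.Icc hs1 ht1 (mem r hr).2⟩
  have le0 : s - δ ≤ t := by linarith
  have a0 := memJ _ (left_mem_Icc.2 le0)
  have a1 := memJ _ (right_mem_Icc.2 le0)
  have a2 := memJ s ⟨by linarith, hst⟩
  have L := hWt hJ (Lin.dq hw h) (s - δ)
  have i1 := (hw.lZ.shift h).ii_sq a0.2 a1.2
  have i2 := hw.lZ.ii_sq a0.1 a1.1
  have i3 := hw.lZ.ii_sq hs1 ht1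
  have sub : ∀ a b, s - 2 * δ ≤ a → a ≤ b → b ≤ t + δ →
      ∫ r in a..b, ‖Z r‖ ^ 2 ≤ ∫ r in s - 2 * δ..t + δ, ‖Z r‖ ^ 2 := fun a b h1 h2 h3 =>
    intervalIntegral.integral_mono_interval h1 h2 h3
      (Eventually.of_forall fun r => by positivity) i3
  obtain ⟨st1, st2, -⟩ := hSt hI hw.lG
  have i4 : IntervalIntegrable (fun r => 3 / S.c * ‖stk h (fun t => S.G (Z t)) r‖ ^ 2) volume
      (s - δ) t :=
    ((((st2 h).mono (hJ.uIcc a0 a1)).norm.pow 2).intervalIntegrable).const_mul _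
  obtain ⟨p1, p2⟩ := hΓ (c := S.c) (k := fun r => κ * (‖Z (r + h)‖ ^ 2 + ‖Z r‖ ^ 2))
    (m := fun r => 3 / S.c * ‖stk h (fun t => S.G (Z t)) r‖ ^ 2) hJ L hc.le a0 a1 le0
    ((i1.add i2).const_mul κ) i4 (fun r => by positivity) (fun r => by positivity) (by
      rw [intervalIntegral.integral_const_mul, intervalIntegral.integral_add i1 i2,
        intervalIntegral.integral_comp_add_right (fun r => ‖Z r‖ ^ 2)]
      exact mul_le_mul_of_nonneg_left (add_le_add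
        (sub _ _ (by linarith [hh.1]) (by linarith) (by linarith [hh.2]))
        (sub _ _ (by linarith) le0 (by linarith))) κ0) (by
      filter_upwards [L.lift, hw.lift, (Lin.shift hw h).lift] with r e1 e2 e3 hr
      have hr' := Ioo_subset_Icc_self hr
      have b := memJ r hr'
      have e4 : adj S.ι (dq h z r) = stk h (fun t => S.G (Z t)) r := by
        rw [dq, stk, map_smul, map_sub, hw.eq r b.1 (r + h) b.2]
      rw [← e1 b, e4, hκ, dq, dq, Dq1.scale]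
      refine Dq1.point S _ _ ?_ ?_
      · rw [e3 b.2]
        exact hR _ (mem r hr').2
      · rw [e2 b.1]
        exact hR _ (mem r hr').1)
  have q : Γ * (‖(s - δ - (s - δ)) • dq h z (s - δ)‖ ^ 2 +
      ∫ r in s - δ..t, 3 / S.c * ‖stk h (fun t => S.G (Z t)) r‖ ^ 2) ≤ N := by
    rw [sub_self, zero_smul, norm_zero, zero_pow two_ne_zero, zero_add, hN,
      intervalIntegral.integral_const_mul]
    have := st1 (s - δ) t (s - 2 * δ) (t + δ) h hs1 ht1 le0 (by linarith) (by linarith [hh.1])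
      (by linarith) (by linarith [hh.2])
    gcongr
  have wt : ∀ {E : Type} [NormedAddCommGroup E] [NormedSpace ℝ E] (x : E), ∀ r ∈ Icc s t,
      δ ^ 2 * ‖x‖ ^ 2 ≤ ‖(r - (s - δ)) • x‖ ^ 2 := fun x r hr => by
    rw [norm_smul, mul_pow, Real.norm_eq_abs, sq_abs]
    gcongr
    linarith [hr.1]
  have n1 : 0 ≤ N / δ ^ 2 := by positivity
  have n2 : 0 ≤ N / S.c / δ ^ 2 := by positivity
  refine ⟨fun r hr => ?_, ?_⟩
  · have h1 := ((wt (dq h z r) r hr).trans (p1 r ⟨by linarith [hr.1], hr.2⟩)).trans q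
    rw [← le_div_iff₀' (by positivity)] at h1
    nlinarith [sq_nonneg (‖dq h z r‖ - 1)]
  · have j1 := (Lin.dq hw h).lZ.ii_sq a2 a1
    have h1 : δ ^ 2 * ∫ r in s..t, ‖dq h Z r‖ ^ 2 ≤
        ∫ r in s - δ..t, ‖(r - (s - δ)) • dq h Z r‖ ^ 2 := by
      rw [← intervalIntegral.integral_const_mul]
      exact (intervalIntegral.integral_mono_on hst (j1.const_mul _) (L.lZ.ii_sq a2 a1)
        fun r hr => wt _ r hr).trans (intervalIntegral.integral_mono_interval (by linarith) hst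
          le_rfl (Eventually.of_forall fun r => by positivity) (L.lZ.ii_sq a0 a1))
    have h2 := p2.trans q
    rw [← le_div_iff₀' hc] at h2
    have h3 := h1.trans h2
    rw [← le_div_iff₀' (by positivity)] at h3
    linarith

end Pool.Agent.MP_ed9623_an.H77
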