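import Pool.Agent.MP_ed9623_an.H77.SpecX

/-! In an annular zone the half difference has no radial component. -/

open MeasureTheory Filter Topology Set
open scoped ContDiff InnerProductSpace

namespace Pool.Agent.MP_ed9623_an.H77

open H64

namespace Swirl

variable {c : P} {φ : P → ℝ}

theorem pd_comp {β : ℝ → ℝ} (hβ : ContDiff ℝ ∞ β) (c : P) (l : Fin 2) (x : P) :
    pd (ee l) (fun x => β (qc c x)) x = deriv β (qc c x) * (2 * Xc c l x) := by
  have h := (hβ.differentiable (by simp) (qc c x)).hasDerivAt.comp_hasFDerivAt x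
    (sm_diff (sm_qc c) x).hasFDerivAt
  rw [← pd_qc]
  exact congrArg (fun T : P →L[ℝ] ℝ => T (ee l)) h.fderiv

/-- The angular derivative. -/
noncomputable def ang (c : P) (φ : P → ℝ) : P → ℝ :=
  fun x => pd (ee 0) φ x * Xc c 1 x - pd (ee 1) φ x * Xc c 0 x

theorem crl_eq (hφ : ContDiff ℝ ∞ φ) :
    crl (fun _ => 0) (fun j x => φ x * Xc c j x) = ang c φ := by
  funext x
  simp only [crl, dd_zero, ang, pd_mul _ (sm_diff hφ x) (sm_diff (sm_Xc c _) x), pd_Xc]
  simp

theorem test_ang {O : Set P} (hφ : Test O φ) : Test O (ang c φ) :=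
  ((hφ.pd _).muls (sm_Xc c 1)).sub ((hφ.pd _).muls (sm_Xc c 0))

theorem int_ang (hφ : Test univ φ) : ∫ x, ang c φ x = 0 := by
  have k := fun j => hφ.muls (sm_Xc c j)
  have i := fun j e => ((k j).pd e).ct.integrable_of_hasCompactSupport (μ := volume)
    ((k j).pd e).2.1
  have z := fun j e => integral_pd_eq_zero volume e (contDiff_infty.1 (k j).1 1) (k j).2.1
  rw [← crl_eq hφ.1]
  simp only [crl, dd_zero]
  rw [integral_sub (i _ _) (i _ _), z, z, sub_zero]

theorem int_ang_mul {β : ℝ → ℝ} (hβ : ContDiff ℝ ∞ β) (hφ : Test univ φ) :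
    ∫ x, β (qc c x) * ang c φ x = 0 := by
  have s : ContDiff ℝ ∞ fun x => β (qc c x) := hβ.comp (sm_qc c)
  rw [← int_ang (c := c) (hφ.smul s)]
  refine integral_congr_ae (Eventually.of_forall fun x => ?_)
  simp only [ang, pd_mul _ (sm_diff s x) (sm_diff hφ.1 x), pd_comp hβ]
  ring

theorem int_disc (hφ : Test univ φ) (K : ℝ) : ∫ x in {x | qc c x < K}, ang c φ x = 0 := by
  have hG := test_ang (c := c) hφ
  have cq := (sm_qc c).continuous
  have s : ∀ n : ℕ, ContDiff ℝ ∞ fun s : ℝ => Real.smoothTransition (n * (K - s)) := fun n =>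
    Real.smoothTransition.contDiff.comp (contDiff_const.mul (contDiff_const.sub contDiff_id))
  rw [← integral_indicator (isOpen_lt cq continuous_const).measurableSet]
  refine tendsto_nhds_unique (tendsto_integral_of_dominated_convergence
    (F := fun n x => Real.smoothTransition (n * (K - qc c x)) * ang c φ x) (fun x => ‖ang c φ x‖)
    (fun n => (((s n).continuous.comp cq).mul hG.ct).aestronglyMeasurable)
    (hG.ct.integrable_of_hasCompactSupport hG.2.1).norm
    (fun n => Eventually.of_forall fun x => ?_) (Eventually.of_forall fun x => ?_)) ?_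
  · rw [norm_mul, Real.norm_of_nonneg (Real.smoothTransition.nonneg _)]
    exact mul_le_of_le_one_left (norm_nonneg _) (Real.smoothTransition.le_one _)
  · by_cases hx : qc c x < K
    · rw [indicator_of_mem (show x ∈ {x | qc c x < K} from hx)]
      refine tendsto_const_nhds.congr' ?_
      filter_upwards [(tendsto_natCast_atTop_atTop.atTop_mul_const
        (sub_pos.2 hx)).eventually_ge_atTop 1] with n hn
      rw [Real.smoothTransition.one_of_one_le hn, one_mul]
    · rw [indicator_of_notMem (show x ∉ {x | qc c x < K} from hx)]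
      refine tendsto_const_nhds.congr fun n => ?_
      rw [Real.smoothTransition.zero_of_nonpos (mul_nonpos_of_nonneg_of_nonpos (Nat.cast_nonneg n)
        (sub_nonpos.2 (not_lt.1 hx))), zero_mul]
  · exact tendsto_const_nhds.congr fun n => (int_ang_mul (s n) hφ).symm

theorem int_dom {Ω : Set P} {r R : ℝ} (hΩ : IsOpen Ω) (h1 : ∀ x ∈ Ω, qc c x < R ^ 2)
    (h2 : An c r R ⊆ Ω) (hφ : Test {x | r ^ 2 < qc c x} φ) :
    ∫ x in Ω, crl (fun _ => 0) (fun j x => φ x * Xc c j x) x = 0 := by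
  rw [crl_eq hφ.1, ← int_disc (c := c) hφ.top (R ^ 2), ← integral_indicator hΩ.measurableSet,
    ← integral_indicator (isOpen_lt (sm_qc c).continuous continuous_const).measurableSet]
  refine integral_congr_ae (Eventually.of_forall fun x => ?_)
  by_cases hx : x ∈ Ω
  · rw [indicator_of_mem hx, indicator_of_mem (show x ∈ {x | qc c x < R ^ 2} from h1 x hx)]
  · rw [indicator_of_notMem hx]
    by_cases hq : x ∈ {x | qc c x < R ^ 2}
    · rw [indicator_of_mem hq]
      exact ((test_ang hφ).off fun h => hx (h2 ⟨h, hq⟩)).symm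
    · rw [indicator_of_notMem hq]

/-- The heat equation of the radial component. -/
theorem heat {w z : Fin 2 → P → ℝ} {dw : Fin 2 → Fin 2 → P → ℝ} (hw : VF (fun _ => 0) w dw)
    (hz : ∀ j, M2 (z j)) (hφ : Test univ φ)
    (h : ip z (fun j x => φ x * Xc c j x) + di (fun _ => 0) dw (fun j x => φ x * Xc c j x) = 0) :
    (∫ x, (∑ j, Xc c j x * z j x) * φ x)
      + ∑ i, ∫ x, (∑ j, Xc c j x * dw j i x + w i x) * pd (ee i) φ x = 0 := by
  have iA := fun j i => ((hw.h1 j).md i).int_mul ((hφ.pd (ee i)).muls (sm_Xc c j)).m2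
  have iB := fun j i => ((hw.h1 j).md i).int_mul hφ.m2
  have e1 : ∫ x, (∑ j, Xc c j x * z j x) * φ x = ip z fun j x => φ x * Xc c j x := by
    rw [ip, ← integral_finsetSum _ fun j _ => (hz j).int_mul (hφ.muls (sm_Xc c j)).m2]
    refine integral_congr_ae (Eventually.of_forall fun x => ?_)
    simp only [Fin.sum_univ_two]
    ring
  have e2 : ∀ i, ∫ x, (∑ j, Xc c j x * dw j i x + w i x) * pd (ee i) φ x
      = (∑ j, ∫ x, dw j i x * (pd (ee i) φ x * Xc c j x)) - ∫ x, dw i i x * φ x := fun i => by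
    have := (hw.h1 i).w i φ hφ
    rw [dd_zero] at this
    rw [sub_eq_add_neg, ← this, ← integral_finsetSum _ fun j _ => iA j i, ← integral_add
      (integrable_finsetSum _ fun j _ => iA j i) ((hw.h1 i).m.int_mul (hφ.pd _).m2)]
    refine integral_congr_ae (Eventually.of_forall fun x => ?_)
    simp only [Fin.sum_univ_two]
    ring
  have e3 : ∀ j i, ∫ x, dw j i x * dd (fun _ => 0) i (fun x => φ x * Xc c j x) x
      = (∫ x, dw j i x * (pd (ee i) φ x * Xc c j x))
        + (if j = i then 1 else 0) * ∫ x, dw j i x * φ x := fun j i =>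
    int_lin (iA j i) (iB j i) fun p => by
      rw [dd_zero, pd_mul _ (sm_diff hφ.1 p) (sm_diff (sm_Xc c j) p), pd_Xc, mul_comm (φ p)]
  have e4 : (∫ x, dw 0 0 x * φ x) + ∫ x, dw 1 1 x * φ x = 0 := by
    rw [← integral_add (iB 0 0) (iB 1 1), ← integral_zero P ℝ (μ := volume)]
    exact integral_congr_ae (hw.dv.mono fun x hx => by
      change dw 0 0 x * φ x + dw 1 1 x * φ x = 0
      rw [← add_mul, hx, zero_mul])
  rw [e1]
  simp only [di, e3] at h
  simp only [e2]
  simp only [Fin.sum_univ_two, if_true, zero_ne_one, one_ne_zero, if_false, one_mul, zero_mul,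
    add_zero] at h ⊢
  linarith

theorem exS {m : Fin 2 → P → ℝ} (hm : ∀ j, Test univ (m j)) : ∃ S : E6 →L[ℝ] E6, ∀ v k,
    (vl (S v) k =ᵐ[volume] fun p => m 0 p * vl v 0 p + m 1 p * vl v 1 p) ∧ ∀ i,
      gj (S v) k i =ᵐ[volume] fun p => (m 0 p * gj v 0 i p + pd (ee i) (m 0) p * vl v 0 p)
        + (m 1 p * gj v 1 i p + pd (ee i) (m 1) p * vl v 1 p) := by
  choose T hT using fun j => exists_mul (hm j)
  choose U hU using fun j i => exists_mul ((hm j).pd (ee i))
  let pr : Ix → E6 →L[ℝ] L := fun ix => PiLp.proj 2 (fun _ : Ix => L) ix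
  let F : Option (Fin 2) → E6 →L[ℝ] L := fun o => match o with
    | none => T 0 ∘L pr (0, none) + T 1 ∘L pr (1, none)
    | some i => (T 0 ∘L pr (0, some i) + U 0 i ∘L pr (0, none))
      + (T 1 ∘L pr (1, some i) + U 1 i ∘L pr (1, none))
  refine ⟨(PiLp.continuousLinearEquiv 2 ℝ fun _ : Ix => L).symm.toContinuousLinearMap ∘L
    ContinuousLinearMap.pi fun ix => F ix.2, fun v k => ⟨?_, fun i => ?_⟩⟩
  · exact (Lp.coeFn_add (T 0 (v (0, none))) (T 1 (v (1, none)))).trans ((hT 0 _).add (hT 1 _))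
  · exact (Lp.coeFn_add (T 0 (v (0, some i)) + U 0 i (v (0, none)))
      (T 1 (v (1, some i)) + U 1 i (v (1, none)))).trans
      (((Lp.coeFn_add _ _).trans ((hT 0 _).add (hU 0 i _))).add
        ((Lp.coeFn_add _ _).trans ((hT 1 _).add (hU 1 i _))))

end Swirl

open Swirl in
theorem rowSwirl : OfSwirl := by
  intro hU hN Ω g R r R₀ a w c ζ₀ hΩ hr hR h1 h2 hP hD hv
  have cq := (sm_qc c).continuous
  have oO : IsOpen {x | r ^ 2 < qc c x} := isOpen_lt continuous_const cq
  obtain ⟨χ, hχ, -, h3⟩ := exists_cut (isCompact_disc c R₀) isOpen_univ (subset_univ _)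
  have hm := fun j => hχ.muls (sm_Xc c j)
  have m1 : ∀ j x, qc c x < R₀ ^ 2 → (fun x => χ x * Xc c j x) =ᶠ[𝓝 x] Xc c j := fun j x hx =>
    (h3.filter_mono (nhds_le_nhdsSet (show x ∈ {x | qc c x ≤ R₀ ^ 2} from hx.le))).mono
      fun y hy => by simp only [hy, one_mul]
  obtain ⟨S, hS⟩ := exS hm
  have a1 : ∀ v : E6, (∀ ix, Van Ωᶜ (v ix)) → ∀ k,
      vl (S v) k =ᵐ[volume] fun p => ∑ j, Xc c j p * vl v j p := fun v h k => by
    filter_upwards [(hS v k).1, h (0, none), h (1, none)] with p e b0 b1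
    rw [e, Fin.sum_univ_two]
    by_cases hp : p ∈ Ω
    · rw [(m1 0 p (h1 p hp)).eq_of_nhds, (m1 1 p (h1 p hp)).eq_of_nhds]
    · simp only [vl, b0 hp, b1 hp, mul_zero]
  have a2 : ∀ v : E6, (∀ ix, Van Ωᶜ (v ix)) → ∀ k i,
      gj (S v) k i =ᵐ[volume] fun p => ∑ j, Xc c j p * gj v j i p + vl v i p := fun v h k i => by
    filter_upwards [(hS v k).2 i, h (0, none), h (1, none), h (0, some i), h (1, some i),
      h (i, none)] with p e b0 b1 d0 d1 bi
    rw [e, Fin.sum_univ_two]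
    by_cases hp : p ∈ Ω
    · rw [pd_congr_pt _ (m1 0 p (h1 p hp)), pd_congr_pt _ (m1 1 p (h1 p hp)),
        (m1 0 p (h1 p hp)).eq_of_nhds, (m1 1 p (h1 p hp)).eq_of_nhds, pd_Xc, pd_Xc]
      fin_cases i <;> simp <;> ring
    · simp only [vl, gj, b0 hp, b1 hp, d0 hp, d1 hp, bi hp, mul_zero, add_zero]
  have H := hU univ _ (fun t => S (w t)) isOpen_univ oO (hN.2.1 c r) (S.contDiff.comp hP.sw)
    (fun t => ⟨fun k => ((((hP.mw t).1.1 0).cut Gam.zero (hm 0)).add
      (((hP.mw t).1.1 1).cut Gam.zero (hm 1)) Gam.zero).congr (hS _ k).1.symm fun i => by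
        simp only [dd_zero]; exact ((hS _ k).2 i).symm,
      fun _ => Eventually.of_forall fun p hp => absurd (mem_univ p) hp⟩)
    (fun x hx => ⟨_, 0, oO, hx, le_rfl, fun t _ => ⟨fun _ _ => 0,
      fun _ => ⟨M2.zero, nm_zero.le⟩, fun k φ hφ => ?_, fun ψ _ => by simp [nm_zero]⟩⟩)
    ⟨(c.1 + R₀ + 2, c.2), ?_, 1, one_pos, fun t _ k => ?_⟩
  · intro t
    filter_upwards [H t (mem_univ t) 0, a1 (w t) (hP.mw t).1.2 0] with p b e hp
    rw [← b hp.1, e]
    exact Finset.sum_congr rfl fun j _ => mul_comm _ _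
  · have f := hP.fl t
    have k1 := fun j => hφ.muls (sm_Xc c j)
    have T := hD.2.2 _ _ _ _ _ _ f _ k1
    rw [int_dom hΩ h1 h2 hφ, mul_zero, Tx_van k1 fun j => ((hv t j).union (f.na j)).mono
      fun p hp => (em (p ∈ Ω)).elim (fun b => Or.inl ⟨hp, h1 p b⟩) Or.inr] at T
    rw [deriv_clm S hP.sw, show ∫ x, (0 : ℝ) * φ x = 0 by simp]
    exact (congrArg₂ (· + ·) (integral_congr_ae ((a1 _ (hP.mz t).1.2 k).mul (EventuallyEq.refl _ φ)))
      (Finset.sum_congr rfl fun i _ => integral_congr_ae ((a2 _ (hP.mw t).1.2 k i).mul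
        (EventuallyEq.refl _ (pd (ee i) φ))))).trans (heat f.vw (m2_vl _) hφ.top T)
  · change r ^ 2 < (c.1 + R₀ + 2 - c.1) ^ 2 + (c.2 - c.2) ^ 2
    nlinarith
  · filter_upwards [a1 (w t) (hP.mw t).1.2 k, (hP.fl t).nw 0, (hP.fl t).nw 1] with p e b0 b1 hp
    have hq : p ∈ Ωᶜ := fun b => by
      have b2 := h1 p b
      have b3 := (abs_lt.1 ((le_max_left _ _).trans_lt (Metric.mem_ball.1 hp))).1
      simp only [qc] at b2
      nlinarith [sq_nonneg (p.2 - c.2)]
    rw [e, Fin.sum_univ_two, b0 hq, b1 hq, mul_zero, mul_zero, add_zero]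

end Pool.Agent.MP_ed9623_an.H77
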